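import Pool.Agent.Lib.MP_0c3240_lc.Final

/-!
Automatic homeomorphicity of the polymorphism clones of all structures that are first-order
definable in `(ℕ, =)`.
-/

universe u v

namespace Pool.Agent.Results.MP_0c3240_lc.AutHomeo

open Pool.Agent.Lib.MP_0c3240_lc

/-- Let `𝔸` be any relational structure with domain `ℕ` all of whose relations are first-order
definable (without parameters) in `(ℕ, =)`.  Then `Pol(𝔸)` has automatic homeomorphicity with
respect to the class of all closed clones on `ℕ`. -/
theorem result (L : FirstOrder.Language.{u, v}) [L.IsRelational] [L.Structure ℕ]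
    (h : DefinableInEquality L) : AutomaticHomeomorphicity (Pol L) :=
  automaticHomeomorphicity_of_perm (Pol L) (isClosed_Pol L) (perm_mem_Pol L h)

end Pool.Agent.Results.MP_0c3240_lc.AutHomeo
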